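import Pool.Graph.R_pool_sql_team_39128cda.H.MP_e77664_al.E
import Pool.Graph.R_pool_sql_team_39128cda.H.MP_e77664_al.F

/-!
# Every countable division ring embeds in a division ring which is finitely generated as a ring

The universal division rings and the derivations are those of the library modules
`Pool.Graph.R_pool_sql_team_39128cda.H.MP_e77664_al`.
-/

set_option autoImplicit false

namespace Pool.Agent.Results.MP_e77664_al.EmbeddingTheorem

open Pool.Agent.H.MP_e77664_al (Dat univ hnn St tw chain et et_dvd et_cont et_spec dvd_l)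

/-- prime fields -/
theorem prime (D0 : Type) [DivisionRing D0] : ∃ (F : Type) (_ : DivisionRing F) (_ : F →+* D0),
    ∀ (S : Type) [Ring S] (f : F →+* S) (e : F) (s : S), s * f e = f e * s := by
  obtain ⟨q, hq⟩ := CharP.exists D0
  rcases Nat.eq_zero_or_pos q with rfl | hpos
  · have : CharZero D0 := CharP.charP_to_charZero D0
    refine ⟨ℚ, inferInstance, Rat.castHom D0, fun S _ f e s => ?_⟩
    have hd : (e.den : ℚ) ≠ 0 := by exact_mod_cast e.den_ne_zero
    have h1 : f (1 / (e.den : ℚ)) * (e.den : S) = 1 := by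
      rw [← map_natCast f e.den, ← map_mul, one_div, inv_mul_cancel₀ hd, map_one]
    have h2 : (e.den : S) * f e = (e.num : S) := by
      rw [← map_natCast f e.den, ← map_mul, ← map_intCast f e.num]
      congr 1
      exact Rat.den_mul_eq_num e
    calc s * f e = f (1 / (e.den : ℚ)) * (e.den : S) * (s * f e) := by rw [h1, one_mul]
      _ = f (1 / (e.den : ℚ)) * (s * ((e.den : S) * f e)) := by
        rw [mul_assoc, ← mul_assoc (e.den : S), (Nat.cast_commute e.den s).eq, mul_assoc]
      _ = f (1 / (e.den : ℚ)) * ((e.den : S) * f e * s) := by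
        rw [h2, (Int.cast_commute e.num s).eq]
      _ = f (1 / (e.den : ℚ)) * (e.den : S) * (f e * s) := by simp only [mul_assoc]
      _ = f e * s := by rw [h1, one_mul]
  · have hprime : q.Prime := (CharP.char_is_prime_or_zero D0 q).resolve_right hpos.ne'
    have : Fact q.Prime := ⟨hprime⟩
    refine ⟨ZMod q, inferInstance, ZMod.castHom (dvd_refl q) D0, fun S _ f e s => ?_⟩
    have h : f e = ((e.val : ℕ) : S) := by
      conv_lhs => rw [← ZMod.natCast_zmod_val e]
      rw [map_natCast]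
    rw [h]
    exact (Nat.cast_commute _ s).eq.symm

open TrivSqZeroExt in
lemma base (D0 : Type) [DivisionRing D0] : ∃ (E : Type) (_ : DivisionRing E) (_ : D0 →+* E)
    (z : ℕ → E), ∀ (K : Type) [DivisionRing K]
    (ι : E →+* K) (η : ℕ → K), ∃ δ : E →+ K, (∀ e e', δ (e * e') = δ e * ι e' + ι e * δ e') ∧
      ∀ j, δ (z j) = η j := by
  obtain ⟨F, _, jF, hF⟩ := prime D0
  let := Module.compHom D0 jF
  let D : Dat F D0 ℕ _ := ⟨jF, fun _ _ => rfl, Module.Basis.ofVectorSpace F D0, 0, by simp⟩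
  obtain ⟨_, d, hd⟩ := D.wa
  obtain ⟨E, _, f, h1, h2, h3⟩ := univ hd.syl
  refine ⟨E, inferInstance, f.comp D.io, fun j => f (D.s j), fun K _ ι η => ?_⟩
  obtain ⟨g, g1, g2⟩ := D.lift ((inlHom K K).comp (ι.comp (f.comp D.io)))
    (fun j => inl (ι (f (D.s j))) + inr (η j)) fun j e => by
      have := hF _ (((inlHom K K).comp (ι.comp (f.comp D.io))).comp D.ι) e
        (inl (ι (f (D.s j))) + inr (η j))
      rw [show D.δ j e = 0 from rfl, map_zero, add_zero]
      exact this
  let p : TrivSqZeroExt K K →+* K := RingHom.mk' ⟨⟨fst, rfl⟩, fst_mul⟩ fst_add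
  have hp : ∀ x, p x = x.fst := fun _ => rfl
  have p1 : ∀ b, p (g b) = ι (f b) := fun b => by
    induction b using D.indG with
    | h1 c => rw [g1]; rfl
    | h2 i => rw [g2]; simp [hp]
    | ha x y hx hy => simp only [map_add, hx, hy]
    | hm x y hx hy => simp only [map_mul, hx, hy]
  have u1 : ∀ (n : ℕ) (M : Matrix (Fin n) (Fin n) (TrivSqZeroExt K K)), p.mapMatrix M = 1 →
      IsUnit M := fun n M hM => by
    have h0 : ∀ i j, ((M - 1) i j).fst = 0 := fun i j =>
      congrFun (congrFun (show p.mapMatrix (M - 1) = 0 by rw [map_sub, hM, map_one, sub_self]) i) j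
    have : IsNilpotent (M - 1) := ⟨2, by
      ext1 i j
      rw [pow_two, Matrix.mul_apply]
      exact Finset.sum_eq_zero fun k _ => by ext <;> simp only [fst_mul, snd_mul, h0] <;> simp⟩
    simpa using this.isUnit_one_add
  obtain ⟨g', hg⟩ := h2 _ g fun n A hA => by
    obtain ⟨U, hU⟩ := (h1 n A hA).map ι.mapMatrix
    have e1 : p.mapMatrix (A.map g) = U.1 := by rw [hU]; ext i j; exact p1 _
    have e2 : p.mapMatrix (U⁻¹.1.map inl) = U⁻¹.1 := rfl
    obtain ⟨a, ha⟩ := (u1 n (A.map g * U⁻¹.1.map inl) (by simp only [map_mul, e1, e2]; simp)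
      ).exists_right_inv
    obtain ⟨b, hb⟩ := (u1 n (U⁻¹.1.map inl * A.map g) (by simp only [map_mul, e1, e2]; simp)
      ).exists_left_inv
    exact isUnit_iff_exists_and_exists.2 ⟨⟨_, (mul_assoc _ _ _).symm.trans ha⟩,
      _, (mul_assoc _ _ _).trans hb⟩
  have e : ∀ x, (g' x).fst = ι x :=
    RingHom.congr_fun (h3 _ (p.comp g') ι fun r => by rw [RingHom.comp_apply, hg, p1])
  exact ⟨AddMonoidHom.mk' (fun x => (g' x).snd) (by simp), fun x y => by simp [e, add_comm],
    fun j => by simp [hg, g2]⟩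

instance {E : Type} [DivisionRing E] (st : St E) : DivisionRing st.K := st.dr

theorem amb (D0 : Type) [DivisionRing D0] : ∃ (K : Type) (_ : DivisionRing K) (j0 : D0 →+* K)
    (z : ℕ → K) (t : K),
    (∀ j, t * z j - z j * t = z (j + 1)) ∧ (∀ c : ℕ → D0, ∃ s, ∀ j, s * z j - z j * s = j0 (c j)) ∧
    ∀ (m : ℕ) (η : ℕ → K), (∀ j, m ≤ j → η j = 0) →
      ∃ s, ∀ j, s * z j - z j * s = η j := by
  obtain ⟨E, _, j0, z, hz⟩ := base D0
  have nx : ∀ st : St E, ∃ (st' : St E) (φ : st.K →+* st'.K), (∀ e, φ (st.ι e) = st'.ι e) ∧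
      ∀ η : ℕ → st.K, ∃ s, ∀ j, s * st'.ι (z j) - st'.ι (z j) * s = φ (η j) := fun st => by
    choose δ h1 h2 using hz st.K st.ι
    obtain ⟨K', _, φ, s, h⟩ := hnn st.ι _ δ h1
    exact ⟨⟨K', φ.comp st.ι⟩, φ, fun _ => rfl, fun η => ⟨s η, fun j => by simp [h, h2]⟩⟩
  obtain ⟨T, φ, h1, h2⟩ : ∃ (T : ℕ → St E) (φ : ∀ n, (T n).K →+* (T (n + 1)).K),
      (∀ n e, φ n ((T n).ι e) = (T (n + 1)).ι e) ∧ ∀ n (η : ℕ → (T n).K), ∃ s, ∀ j,
        s * (T (n + 1)).ι (z j) - (T (n + 1)).ι (z j) * s = φ n (η j) := by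
    choose nx φ h1 h2 using nx
    exact ⟨tw nx, fun n => φ _, fun n => h1 _, fun n => h2 _⟩
  let f := chain (fun n => (T n).K) φ
  have f0 : ∀ i, f i i le_rfl = RingHom.id _ := fun i => Nat.leRecOn_self _
  have f1 : ∀ i j (h : i ≤ j), f i (j + 1) (h.trans j.le_succ) = (φ _).comp (f i j h) :=
    fun i j h => Nat.leRecOn_succ h _
  have : DirectedSystem (fun i => (T i).K) (f · · ·) := ⟨fun i x => by rw [f0]; rfl,
    fun k j i hij hjk x => by
      induction hjk with
      | refl => rw [f0]; rfl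
      | step h ih => rw [f1 _ _ h, f1 _ _ (hij.trans h)]; exact congrArg _ ih⟩
  let o := DirectLimit.Ring.of (fun i => (T i).K) f
  have o1 : ∀ n x, o (n + 1) (φ _ x) = o n x := fun n x =>
    (congrArg _ (by rw [f1 _ _ le_rfl, f0]; rfl)).trans (DirectLimit.Ring.of_f (f := f) n.le_succ x)
  have o2 : ∀ n e, o n ((T n).ι e) = o 0 ((T 0).ι e) := fun n e => by
    induction n with
    | zero => rfl
    | succ n ih => rw [← ih, ← o1 n, h1]
  have key : ∀ n (η : ℕ → (T n).K), ∃ s, ∀ j,
      s * o 0 ((T 0).ι (z j)) - o 0 ((T 0).ι (z j)) * s = o n (η j) := fun n η => by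
    obtain ⟨s, hs⟩ := h2 _ η
    exact ⟨o (n + 1) s, fun j => by rw [← o1 n, ← hs, ← o2 (n + 1), map_sub, map_mul, map_mul]⟩
  obtain ⟨t, ht⟩ := key 0 fun j => (T 0).ι (z (j + 1))
  refine ⟨_, inferInstance, (o 0).comp ((T 0).ι.comp j0), fun j => o 0 ((T 0).ι (z j)), t, ht,
    fun c => key 0 fun j => (T 0).ι (j0 (c j)), fun m η hη => ?_⟩
  choose a x hx using fun j => DirectLimit.exists_eq_mk f (η j)
  obtain ⟨s, hs⟩ := key ((Finset.range m).sup a) fun j => if h : j < m then
    f _ _ (Finset.le_sup (Finset.mem_range.2 h)) (x j) else 0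
  refine ⟨s, fun j => (hs j).trans ?_⟩
  split_ifs with h
  · rw [hx]; exact DirectLimit.Ring.of_f _ _
  · rw [map_zero, hη j (not_lt.1 h)]



/-! ### Power series -/

open PowerSeries

variable {K : Type} [DivisionRing K]

noncomputable def evS (t x u : K) (S : K⟦X⟧) : FreeRing (Fin 5) →+* K⟦X⟧ :=
  FreeRing.lift ![X, C t, C x, S, C u]

lemma evS_cont (t x u : K) {S S' : K⟦X⟧} {n : ℕ} (h : X ^ n ∣ S - S') (f : FreeRing (Fin 5)) :
    X ^ n ∣ evS t x u S f - evS t x u S' f := by
  induction f using FreeRing.induction_on with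
  | hn1 => simp
  | hb b => fin_cases b <;> simp [evS, h]
  | ha a b ha hb => convert dvd_add ha hb using 1; simp only [map_add]; abel
  | hm a b ha hb =>
    convert dvd_add (ha.mul_right (evS t x u S b)) (dvd_l (evS t x u S' a) hb) using 1
    simp only [map_mul, sub_mul, mul_sub]; abel

theorem ex_S (D0 : Type) [DivisionRing D0] [Countable D0] : ∃ (K : Type) (_ : DivisionRing K)
    (j0 : D0 →+* K) (φ : FreeRing (Fin 5) →+* K⟦X⟧),
    φ (.of 0) = X ∧ (∀ f, φ f ≠ 0 → ∃ g N, φ f * φ g = X ^ N) ∧ ∀ a, ∃ g, φ g = C (j0 a) := by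
  obtain ⟨K, _, j0, z, t, h1, h1', h2⟩ := amb D0
  have : Countable (FreeMonoid (Fin 5)) := inferInstanceAs (Countable (List (Fin 5)))
  have : Countable (FreeRing (Fin 5)) := inferInstanceAs (Countable (FreeAbelianGroup _))
  obtain ⟨e, he⟩ := exists_surjective_nat (FreeRing (Fin 5))
  obtain ⟨c, hc⟩ := exists_surjective_nat D0
  obtain ⟨u, hu⟩ := h1' c
  let η : K⟦X⟧ → ℕ → K⟦X⟧ := fun S j => et j (evS t (z 0) u S (e j.unpair.1))
  have h3 : ∀ (n : ℕ) (S : K⟦X⟧), ∃ s, ∀ j, s * z j - z j * s = coeff n (η S j) := fun n S =>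
    h2 n _ fun j hj => X_pow_dvd_iff.1 (et_dvd _ _) _ (by omega)
  choose sol hsol using h3
  let SS : ℕ → K⟦X⟧ := fun n => Nat.rec 0 (fun n S => S + monomial n (sol n S)) n
  let S : K⟦X⟧ := mk fun n => sol n (SS n)
  have h4 : ∀ n i, coeff i (SS n) = if i < n then coeff i S else 0 := fun n i => by
    induction n with
    | zero => simp [SS]
    | succ n ih =>
      change coeff i (SS n + monomial n (sol n (SS n))) = _
      rw [map_add, ih, coeff_monomial]
      split_ifs <;> first | omega | simp_all [S]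
  have h5 : ∀ j, S * C (z j) - C (z j) * S = η S j := fun j => by
    ext n
    have := X_pow_dvd_iff.1 (et_cont j (evS_cont t (z 0) u (S := S) (S' := SS n) (n := n)
      (X_pow_dvd_iff.2 fun i hi => by simp [h4, hi]) (e j.unpair.1))) n (by omega)
    rw [map_sub, sub_eq_zero] at this
    rw [map_sub, coeff_mul_C, coeff_C_mul, coeff_mk, hsol, this]
  have h6 : ∀ j, ∃ g, evS t (z 0) u S g = C (z j) := fun j => by
    induction j with
    | zero => exact ⟨.of 2, by simp [evS]⟩
    | succ j ih =>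
      obtain ⟨g, hg⟩ := ih
      exact ⟨.of 1 * g - g * .of 1, by rw [map_sub, map_mul, map_mul, hg]; simp [← h1, evS]⟩
  refine ⟨K, inferInstance, j0, evS t (z 0) u S, by simp [evS], fun f hf => ?_, fun a => ?_⟩
  rotate_left
  · obtain ⟨i, rfl⟩ := hc a
    obtain ⟨g, hg⟩ := h6 i
    exact ⟨.of 4 * g - g * .of 4, by
      rw [map_sub, map_mul, map_mul, hg, ← hu]
      simp [evS]⟩
  obtain ⟨d, hd⟩ := et_spec hf
  obtain ⟨i, rfl⟩ := he f
  obtain ⟨g, hg⟩ := h6 (i.pair d)
  have := hd _ (Nat.right_le_pair i d)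
  refine ⟨.of 3 * g - g * .of 3, _, (congrArg _ ?_).trans this⟩
  rw [map_sub, map_mul, map_mul, hg]
  simpa [η, evS] using h5 (i.pair d)

theorem embeds (D0 : Type) [DivisionRing D0] [Countable D0] :
    ∃ (D : Type) (_ : DivisionRing D) (j : D0 →+* D), Function.Injective j ∧ Infinite D ∧
      ∃ s : Finset D, s.card ≤ 6 ∧ Subring.closure (s : Set D) = ⊤ := by
  classical
  obtain ⟨K, _, j0, φ, h1, h2, h3⟩ := ex_S D0
  let o := HahnSeries.ofPowerSeries ℤ K
  let g : Option (Fin 5) → HahnSeries ℤ K := fun i =>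
    i.elim (HahnSeries.single (-1) 1) fun i => o (φ (.of i))
  let ψ : FreeRing (Option (Fin 5)) →+* HahnSeries ℤ K := FreeRing.lift g
  have hX : ∀ n : ℕ, o (X ^ n) = HahnSeries.single (n : ℤ) 1 := HahnSeries.ofPowerSeries_X_pow
  have a1 : ∀ f, o (φ f) ∈ ψ.range := fun f => ⟨FreeRing.map some f, by
    induction f using FreeRing.induction_on <;> simp_all [ψ, g]⟩
  have a2 : ∀ n : ℕ, HahnSeries.single (-n : ℤ) (1 : K) ∈ ψ.range := fun n => by
    simpa [ψ, g, HahnSeries.single_pow] using pow_mem (ψ.mem_range_self (.of none)) n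
  have a3 : ∀ u, Commute (ψ u) (o X) := fun u => by
    induction u using FreeRing.induction_on with
    | hn1 => simp
    | hb b =>
      cases b
      · have := hX 1
        simp only [pow_one] at this
        simp [ψ, g, this, Commute, SemiconjBy, HahnSeries.single_mul_single]
      · simpa [ψ, g] using (commute_X _).map o
    | ha a b ha hb => rw [map_add]; exact ha.add_left hb
    | hm a b ha hb => rw [map_mul]; exact ha.mul_left hb
  have a4 : ∀ u, ∃ (n : ℕ) (f : FreeRing (Fin 5)), ψ u * o X ^ n = o (φ f) := fun u => by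
    induction u using FreeRing.induction_on with
    | hn1 => exact ⟨0, -1, by simp⟩
    | hb b =>
      rcases b with _ | b
      · exact ⟨1, 1, by rw [← map_pow, hX]; simp [ψ, g, HahnSeries.single_mul_single]⟩
      · exact ⟨0, .of b, by simp [ψ, g]⟩
    | ha a b ha hb =>
      obtain ⟨n, f, hf⟩ := ha
      obtain ⟨m, f', hf'⟩ := hb
      exact ⟨n + m, f * .of 0 ^ m + f' * .of 0 ^ n, by
        simp only [map_add, map_mul, map_pow, h1, ← hf, ← hf', add_mul, mul_assoc, ← pow_add,
          add_comm]⟩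
    | hm a b ha hb =>
      obtain ⟨n, f, hf⟩ := ha
      obtain ⟨m, f', hf'⟩ := hb
      exact ⟨n + m, f * f', by
        rw [map_mul, map_mul, map_mul, ← hf, ← hf', pow_add, mul_assoc, mul_assoc,
          ← mul_assoc (ψ b), ((a3 b).pow_right n).eq, mul_assoc]⟩
  have hr : ∀ u : ψ.range, u ≠ 0 → ∃ v, u * v = 1 := by
    rintro ⟨_, u, rfl⟩ hu
    obtain ⟨n, f, hf⟩ := a4 u
    rw [← map_pow] at hf
    obtain ⟨f', N, h⟩ := h2 f fun h0 => hu (Subtype.ext (by
      have := congrArg (· * HahnSeries.single (-n : ℤ) 1) hf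
      simpa [h0, hX, mul_assoc, HahnSeries.single_mul_single] using this))
    have := a1 (FreeRing.of 0 ^ n)
    rw [map_pow, h1] at this
    refine ⟨⟨_, mul_mem (mul_mem this (a1 f')) (a2 N)⟩, Subtype.ext ?_⟩
    change ψ u * (o (X ^ n) * o (φ f') * _) = 1
    rw [← mul_assoc, ← mul_assoc, hf, ← map_mul, h, hX]
    simp [HahnSeries.single_mul_single]
  have hdiv : ∀ u : ψ.range, IsUnit u ∨ u = 0 := fun u => ?_
  let J : D0 →+* ψ.range := (o.comp (C.comp j0)).codRestrict ψ.range fun a => by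
    obtain ⟨g, hg⟩ := h3 a
    have := a1 g
    rw [hg] at this
    exact this
  refine ⟨ψ.range, DivisionRing.ofIsUnitOrEqZero hdiv, J, J.injective, ?_,
    Finset.univ.image fun i => ψ.rangeRestrict (.of i),
    Finset.card_image_le.trans (by simp), ?_⟩
  rotate_left 2
  · refine or_iff_not_imp_right.2 fun hu => ?_
    obtain ⟨v, hv⟩ := hr u hu
    obtain ⟨w, hw⟩ := hr v (right_ne_zero_of_mul_eq_one hv)
    obtain rfl := left_inv_eq_right_inv hv hw
    exact ⟨⟨u, v, hv, hw⟩, rfl⟩
  · refine Infinite.of_injective (fun n : ℕ => (⟨_, a2 n⟩ : ψ.range)) fun n m h => ?_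
    have := congrArg (fun u : ψ.range => u.1.coeff (-n)) h
    simp only [HahnSeries.coeff_single_same] at this
    by_contra hc
    rw [HahnSeries.coeff_single_of_ne (by omega)] at this
    exact one_ne_zero this
  · refine eq_top_iff.2 fun u _ => ?_
    obtain ⟨u, rfl⟩ := ψ.rangeRestrict_surjective u
    induction u using FreeRing.induction_on with
    | hn1 => simp
    | hb b => exact Subring.subset_closure (by simp)
    | ha a b ha hb => rw [map_add]; exact add_mem (ha trivial) (hb trivial)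
    | hm a b ha hb => rw [map_mul]; exact mul_mem (ha trivial) (hb trivial)


/-- **Theorem.** (1) Every countable division ring embeds in an infinite division ring which is
generated by six elements as a ring (subrings are closed under sums, differences and products only,
inverses are not taken).
(2) In particular there are infinite division rings of every characteristic, zero or prime, which
are generated by six elements as rings. -/
theorem result :
    (∀ (D0 : Type) [DivisionRing D0] [Countable D0],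
      ∃ (D : Type) (_ : DivisionRing D) (j : D0 →+* D), Function.Injective j ∧ Infinite D ∧
        ∃ s : Finset D, s.card ≤ 6 ∧ Subring.closure (s : Set D) = ⊤) ∧
    (∀ p : ℕ, p = 0 ∨ p.Prime →
      ∃ (D : Type) (_ : DivisionRing D), CharP D p ∧ Infinite D ∧
        ∃ s : Finset D, s.card ≤ 6 ∧ Subring.closure (s : Set D) = ⊤) := by
  refine ⟨fun D0 _ _ => embeds D0, fun p hp => ?_⟩
  rcases hp with rfl | hp
  · obtain ⟨D, _, j, hj, h1, h2⟩ := embeds ℚ
    exact ⟨D, inferInstance, charP_of_injective_ringHom hj 0, h1, h2⟩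
  · have : Fact p.Prime := ⟨hp⟩
    obtain ⟨D, _, j, hj, h1, h2⟩ := embeds (ZMod p)
    exact ⟨D, inferInstance, charP_of_injective_ringHom hj p, h1, h2⟩

end Pool.Agent.Results.MP_e77664_al.EmbeddingTheorem
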